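import Pool.Agent.Helper24.GT.St.K0
import Pool.Agent.Helper24.GT.St.K2

namespace Helper24.GT

/-- Number of vertices in the north-west and the south-east of `v`. -/
noncomputable def K3_opp {V : Type*} [Fintype V] (X Y : V → ℝ) (v : V) : ℕ :=
  cnt (fun u => (X u < X v ∧ Y v < Y u) ∨ (X v < X u ∧ Y u < Y v))

/-- Number of vertices in the south-west and the north-east of `v`. -/
noncomputable def K3_same {V : Type*} [Fintype V] (X Y : V → ℝ) (v : V) : ℕ :=
  cnt (fun u => (X u < X v ∧ Y u < Y v) ∨ (X v < X u ∧ Y v < Y u))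

theorem K3_cnt_congr {V : Type*} [Fintype V] {P Q : V → Prop} (h : ∀ u, P u ↔ Q u) :
    cnt P = cnt Q := by
  have : P = Q := funext fun u => propext (h u)
  rw [this]

theorem K3_cnt_or {V : Type*} [Fintype V] {P Q : V → Prop} (h : ∀ u, ¬ (P u ∧ Q u)) :
    cnt (fun u => P u ∨ Q u) = cnt P + cnt Q := by
  classical
  have key : ∀ (R : V → Prop), cnt R = (Finset.univ.filter R).card := by
    intro R
    unfold cnt
    congr
  rw [key, key, key, ← Finset.card_union_of_disjoint]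
  · congr 1
    ext u
    simp
  · rw [Finset.disjoint_filter]
    intro u _ h1 h2
    exact h u ⟨h1, h2⟩

theorem K3_rank_sum {V : Type*} [Fintype V] {X Y : V → ℝ} (hX : Function.Injective X)
    (hY : Function.Injective Y) (v : V) :
    rk X v + rk Y v = 2 * mm X Y v + K3_opp X Y v := by
  have h1 : rk X v = mm X Y v + cnt (fun u => X u < X v ∧ Y v < Y u) := by
    unfold rk mm
    rw [← K3_cnt_or]
    · apply K3_cnt_congr
      intro u
      constructor
      · intro h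
        have hne : Y u ≠ Y v := fun e => by
          have := hY e
          rw [this] at h
          exact lt_irrefl _ h
        rcases lt_or_gt_of_ne hne with h2 | h2
        · exact Or.inl ⟨h, h2⟩
        · exact Or.inr ⟨h, h2⟩
      · rintro (h | h)
        · exact h.1
        · exact h.1
    · rintro u ⟨⟨_, h2⟩, ⟨_, h4⟩⟩
      exact lt_asymm h2 h4
  have h2 : rk Y v = mm X Y v + cnt (fun u => X v < X u ∧ Y u < Y v) := by
    unfold rk mm
    rw [← K3_cnt_or]
    · apply K3_cnt_congr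
      intro u
      constructor
      · intro h
        have hne : X u ≠ X v := fun e => by
          have := hX e
          rw [this] at h
          exact lt_irrefl _ h
        rcases lt_or_gt_of_ne hne with h2 | h2
        · exact Or.inl ⟨h2, h⟩
        · exact Or.inr ⟨h2, h⟩
      · rintro (h | h)
        · exact h.2
        · exact h.2
    · rintro u ⟨⟨h1, _⟩, ⟨h3, _⟩⟩
      exact lt_asymm h1 h3
  have h3 : K3_opp X Y v = cnt (fun u => X u < X v ∧ Y v < Y u) +
      cnt (fun u => X v < X u ∧ Y u < Y v) := by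
    unfold K3_opp
    rw [K3_cnt_or]
    rintro u ⟨⟨h1, _⟩, ⟨h3, _⟩⟩
    exact lt_asymm h1 h3
  omega

theorem K3_opp_negX {V : Type*} [Fintype V] (X Y : V → ℝ) (v : V) :
    K3_opp (fun u => - X u) Y v = K3_same X Y v := by
  unfold K3_opp K3_same
  apply K3_cnt_congr
  intro u
  simp only [neg_lt_neg_iff]
  tauto

theorem K3_opp_negY {V : Type*} [Fintype V] (X Y : V → ℝ) (v : V) :
    K3_opp X (fun u => - Y u) v = K3_same X Y v := by
  unfold K3_opp K3_same
  apply K3_cnt_congr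
  intro u
  simp only [neg_lt_neg_iff]

theorem K3_opp_neg {V : Type*} [Fintype V] (X Y : V → ℝ) (v : V) :
    K3_opp (fun u => - X u) (fun u => - Y u) v = K3_opp X Y v := by
  unfold K3_opp
  apply K3_cnt_congr
  intro u
  simp only [neg_lt_neg_iff]
  tauto

theorem K3_corner {V : Type*} [Fintype V] {t : ℕ} {X Y : V → ℝ} {L : Fin t → SimpleGraph V}
    (h : Layered X Y L) (w : ℕ) (hw : 0 < w) (C : Finset V)
    (hC : ∀ v, v ∈ C ↔ rk X v < t ∧ rk Y v < t) :
    6 * ∑ v ∈ C, np X Y L v + ∑ v ∈ C, K3_opp X Y v ≤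
      3 * (∑ v ∈ C, rk X v + ∑ v ∈ C, rk Y v) + 12 * t * (t / w + 1) ^ 2 + 12 * w * C.card := by
  have h1 := corner_bound h w hw C hC
  have h2 : ∑ v ∈ C, (rk X v + rk Y v) = ∑ v ∈ C, (2 * mm X Y v + K3_opp X Y v) :=
    Finset.sum_congr rfl fun v _ => K3_rank_sum h.injX h.injY v
  simp only [Finset.sum_add_distrib, ← Finset.mul_sum] at h1 h2
  nlinarith

theorem K3_split {V : Type*} [DecidableEq V] {M : Type*} [AddCommMonoid M] (S C D : Finset V)
    (hCD : Disjoint C D) (f : V → M) :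
    ∑ v ∈ S, f v = ∑ v ∈ S ∩ C, f v + ∑ v ∈ S ∩ D, f v + ∑ v ∈ S \ (C ∪ D), f v := by
  have e : S = (S ∩ C ∪ S ∩ D) ∪ S \ (C ∪ D) := by
    ext v
    simp only [Finset.mem_union, Finset.mem_inter, Finset.mem_sdiff]
    tauto
  have d1 : Disjoint (S ∩ C) (S ∩ D) :=
    Finset.disjoint_of_subset_left Finset.inter_subset_right
      (Finset.disjoint_of_subset_right Finset.inter_subset_right hCD)
  have d2 : Disjoint (S ∩ C ∪ S ∩ D) (S \ (C ∪ D)) := by
    rw [Finset.disjoint_left]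
    intro v h1 h2
    simp only [Finset.mem_union, Finset.mem_inter, Finset.mem_sdiff] at h1 h2
    tauto
  rw [← Finset.sum_union d1, ← Finset.sum_union d2, ← e]

theorem K3_pairs {V : Type*} [Fintype V] {X Y : V → ℝ} (hX : Function.Injective X)
    (hY : Function.Injective Y) (P₁ P₂ : Finset V) (hd : Disjoint P₁ P₂) :
    P₁.card * P₂.card ≤ ∑ v ∈ P₁, K3_opp X Y v + ∑ v ∈ P₂, K3_same X Y v := by
  classical
  set R : V → V → Prop := fun v u => (X u < X v ∧ Y v < Y u) ∨ (X v < X u ∧ Y u < Y v) with hR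
  have h1 : P₁.card * P₂.card = ∑ v ∈ P₁, ∑ u ∈ P₂, 1 := by simp
  have h2 : ∑ v ∈ P₁, ∑ u ∈ P₂, 1 = ∑ v ∈ P₁, ∑ u ∈ P₂, (if R v u then 1 else 0) +
      ∑ u ∈ P₂, ∑ v ∈ P₁, (if R v u then 0 else 1) := by
    rw [Finset.sum_comm (s := P₂) (t := P₁), ← Finset.sum_add_distrib]
    refine Finset.sum_congr rfl fun v _ => ?_
    rw [← Finset.sum_add_distrib]
    refine Finset.sum_congr rfl fun u _ => ?_
    split_ifs <;> rfl
  rw [h1, h2]
  refine add_le_add (Finset.sum_le_sum fun v _ => ?_) (Finset.sum_le_sum fun u hu => ?_)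
  · rw [← Finset.card_filter]
    unfold K3_opp cnt
    refine Finset.card_le_card ?_
    intro u hu
    have hu2 := (Finset.mem_filter.1 hu).2
    simpa using hu2
  · have : ∑ v ∈ P₁, (if R v u then 0 else 1) = (P₁.filter (fun v => ¬ R v u)).card := by
      rw [Finset.card_filter]
      refine Finset.sum_congr rfl fun v _ => ?_
      split_ifs <;> simp_all
    rw [this]
    unfold K3_same cnt
    refine Finset.card_le_card ?_
    intro v hv'
    have hv := Finset.mem_filter.1 hv'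
    suffices hh : (X v < X u ∧ Y v < Y u) ∨ (X u < X v ∧ Y u < Y v) by simpa using hh
    have hne : v ≠ u := fun e => Finset.disjoint_left.1 hd (e ▸ hv.1) hu
    have hx : X v ≠ X u := fun e => hne (hX e)
    have hy : Y v ≠ Y u := fun e => hne (hY e)
    have h3 := hv.2
    simp only [hR, not_or, not_and_or, not_lt] at h3
    rcases lt_or_gt_of_ne hx with a | a <;> rcases lt_or_gt_of_ne hy with b | b
    · exact Or.inl ⟨a, b⟩
    · exfalso
      rcases h3.2 with c | c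
      · exact absurd a (not_lt.2 c)
      · exact absurd b (not_lt.2 c)
    · exfalso
      rcases h3.1 with c | c
      · exact absurd a (not_lt.2 c)
      · exact absurd b (not_lt.2 c)
    · exact Or.inr ⟨a, b⟩

theorem K3_arith {n t w q : ℤ} {cAC cAD cBC cBD s1 s2 s3 s4 cR : ℤ}
    {nAC nAD nBC nBD nA nB nC nD nR : ℤ} {aAC aAD aA eBC eBD eB bAC bBC bC dAD dBD dD : ℤ}
    {oAC oBD oAD oBC : ℤ} (hw : 0 ≤ w)
    (hs1 : 0 ≤ s1) (hs2 : 0 ≤ s2)
    (hn : cAC + cAD + s1 + (cBC + cBD + s2) + (s3 + s4 + cR) = n)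
    (hA : cAC + cAD + s1 = t) (hB : cBC + cBD + s2 = t) (hC : cAC + cBC + s3 = t)
    (hD : cAD + cBD + s4 = t)
    (gA : 2 * (aAC + aAD + aA) + t = t ^ 2) (gB : 2 * (eBC + eBD + eB) + t = t ^ 2)
    (gC : 2 * (bAC + bBC + bC) + t = t ^ 2) (gD : 2 * (dAD + dBD + dD) + t = t ^ 2)
    (kAC : 6 * nAC + oAC ≤ 3 * (aAC + bAC) + 12 * t * q ^ 2 + 12 * w * cAC)
    (kAD : 6 * nAD + oAD ≤ 3 * (aAD + dAD) + 12 * t * q ^ 2 + 12 * w * cAD)
    (kBC : 6 * nBC + oBC ≤ 3 * (eBC + bBC) + 12 * t * q ^ 2 + 12 * w * cBC)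
    (kBD : 6 * nBD + oBD ≤ 3 * (eBD + dBD) + 12 * t * q ^ 2 + 12 * w * cBD)
    (lA : nA ≤ aA) (lB : nB ≤ eB) (lC : nC ≤ bC) (lD : nD ≤ dD) (lR : nR ≤ t * cR)
    (mA : 2 * aA + s1 * (s1 + 1) ≤ 2 * t * s1) (mB : 2 * eB + s2 * (s2 + 1) ≤ 2 * t * s2)
    (mC : 2 * bC + s3 * (s3 + 1) ≤ 2 * t * s3) (mD : 2 * dD + s4 * (s4 + 1) ≤ 2 * t * s4)
    (pp : (cAC + cBD) * (cAD + cBC) ≤ oAC + oBD + (oAD + oBC)) :
    12 * (nAC + nAD + nA + (nBC + nBD + nB) + (nC + nD + nR)) ≤
      12 * n * t - 12 * t * (t + 1) - 2 * (cAC + cBD) * (cAD + cBC)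
      - 3 * (2 * t - (cAC + cBD) - (cAD + cBC)) ^ 2 + 96 * t * q ^ 2 + 48 * w * t := by
  have e1 : s1 = t - cAC - cAD := by linarith
  have e2 : s2 = t - cBC - cBD := by linarith
  have e3 : s3 = t - cAC - cBC := by linarith
  have e4 : s4 = t - cAD - cBD := by linarith
  have e5 : n = 2 * t + (s3 + s4 + cR) := by linarith
  have w1 : 0 ≤ w * (s1 + s2) := mul_nonneg hw (by linarith)
  have q1 : 0 ≤ (s1 - s2) ^ 2 := sq_nonneg _
  have q2 : 0 ≤ (s3 - s4) ^ 2 := sq_nonneg _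
  subst e1 e2 e3 e4 e5
  nlinarith

theorem K3_arithN {n t w q : ℕ} {cAC cAD cBC cBD s1 s2 s3 s4 cR : ℕ}
    {nAC nAD nBC nBD nA nB nC nD nR : ℕ} {aAC aAD aA eBC eBD eB bAC bBC bC dAD dBD dD : ℕ}
    {oAC oBD oAD oBC N : ℕ}
    (hn : cAC + cAD + s1 + (cBC + cBD + s2) + (s3 + s4 + cR) = n)
    (hA : cAC + cAD + s1 = t) (hB : cBC + cBD + s2 = t) (hC : cAC + cBC + s3 = t)
    (hD : cAD + cBD + s4 = t)
    (gA : 2 * (aAC + aAD + aA) + t = t ^ 2) (gB : 2 * (eBC + eBD + eB) + t = t ^ 2)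
    (gC : 2 * (bAC + bBC + bC) + t = t ^ 2) (gD : 2 * (dAD + dBD + dD) + t = t ^ 2)
    (kAC : 6 * nAC + oAC ≤ 3 * (aAC + bAC) + 12 * t * q ^ 2 + 12 * w * cAC)
    (kAD : 6 * nAD + oAD ≤ 3 * (aAD + dAD) + 12 * t * q ^ 2 + 12 * w * cAD)
    (kBC : 6 * nBC + oBC ≤ 3 * (eBC + bBC) + 12 * t * q ^ 2 + 12 * w * cBC)
    (kBD : 6 * nBD + oBD ≤ 3 * (eBD + dBD) + 12 * t * q ^ 2 + 12 * w * cBD)
    (lA : nA ≤ aA) (lB : nB ≤ eB) (lC : nC ≤ bC) (lD : nD ≤ dD) (lR : nR ≤ t * cR)
    (mA : 2 * aA + s1 * (s1 + 1) ≤ 2 * t * s1) (mB : 2 * eB + s2 * (s2 + 1) ≤ 2 * t * s2)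
    (mC : 2 * bC + s3 * (s3 + 1) ≤ 2 * t * s3) (mD : 2 * dD + s4 * (s4 + 1) ≤ 2 * t * s4)
    (pp : (cAC + cBD) * (cAD + cBC) ≤ oAC + oBD + (oAD + oBC))
    (hN : N = nAC + nAD + nA + (nBC + nBD + nB) + (nC + nD + nR)) :
    (12 * N : ℤ) ≤
      12 * n * t - 12 * t * (t + 1) - 2 * ((cAC + cBD : ℕ) : ℤ) * ((cAD + cBC : ℕ) : ℤ)
      - 3 * (2 * t - ((cAC + cBD : ℕ) : ℤ) - ((cAD + cBC : ℕ) : ℤ)) ^ 2 + 96 * t * (q : ℤ) ^ 2
      + 48 * w * t := by
  zify at hn hA hB hC hD gA gB gC gD kAC kAD kBC kBD lA lB lC lD lR mA mB mC mD pp hN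
  have := K3_arith (by positivity) (by positivity) (by positivity) hn hA hB hC hD gA gB gC gD
    kAC kAD kBC kBD lA lB lC lD lR mA mB mC mD pp
  rw [hN]
  push_cast
  exact this

/-- Main counting inequality.  `A`, `B` are the `t` lowest and highest vertices for `X`, `C`, `D`
those for `Y`; `P₁ = (A ∩ C) ∪ (B ∩ D)`, `P₂ = (A ∩ D) ∪ (B ∩ C)`. -/
theorem np_total {V : Type*} [Fintype V] {t : ℕ} {X Y : V → ℝ} {L : Fin t → SimpleGraph V}
    (h : Layered X Y L) (ht : 2 * t ≤ Fintype.card V) (w : ℕ) (hw : 0 < w) (P₁ P₂ : Finset V)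
    (hP₁ : ∀ v, v ∈ P₁ ↔ (rk X v < t ∧ rk Y v < t) ∨
      (rk (fun u => - X u) v < t ∧ rk (fun u => - Y u) v < t))
    (hP₂ : ∀ v, v ∈ P₂ ↔ (rk X v < t ∧ rk (fun u => - Y u) v < t) ∨
      (rk (fun u => - X u) v < t ∧ rk Y v < t)) :
    (12 * ∑ v, np X Y L v : ℤ) ≤ 12 * Fintype.card V * t - 12 * t * (t + 1)
      - 2 * P₁.card * P₂.card - 3 * (2 * t - P₁.card - P₂.card) ^ 2
      + 96 * t * (t / w + 1 : ℕ) ^ 2 + 48 * w * t := by
  classical
  have hX := h.injX
  have hY := h.injY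
  have hX' : Function.Injective (fun v => - X v) := h.negX.injX
  have hY' : Function.Injective (fun v => - Y v) := h.negY.injY
  set A : Finset V := Finset.univ.filter (fun v => rk X v < t) with hA
  set B : Finset V := Finset.univ.filter (fun v => rk (fun u => - X u) v < t) with hB
  set C : Finset V := Finset.univ.filter (fun v => rk Y v < t) with hC
  set D : Finset V := Finset.univ.filter (fun v => rk (fun u => - Y u) v < t) with hD
  have mA : ∀ v, v ∈ A ↔ rk X v < t := fun v => by rw [hA, Finset.mem_filter]; simp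
  have mB : ∀ v, v ∈ B ↔ rk (fun u => - X u) v < t := fun v => by rw [hB, Finset.mem_filter]; simp
  have mC : ∀ v, v ∈ C ↔ rk Y v < t := fun v => by rw [hC, Finset.mem_filter]; simp
  have mD : ∀ v, v ∈ D ↔ rk (fun u => - Y u) v < t := fun v => by rw [hD, Finset.mem_filter]; simp
  have dAB : Disjoint A B := by
    rw [Finset.disjoint_left]
    intro v h1 h2
    rw [mA] at h1
    rw [mB] at h2
    have := rk_neg hX v
    omega
  have dCD : Disjoint C D := by
    rw [Finset.disjoint_left]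
    intro v h1 h2
    rw [mC] at h1
    rw [mD] at h2
    have := rk_neg hY v
    omega
  have htc : t ≤ Fintype.card V := by omega
  obtain ⟨cA, gA⟩ := sum_rk_low hX htc A mA
  obtain ⟨cB, gB⟩ := sum_rk_low hX' htc B mB
  obtain ⟨cC, gC⟩ := sum_rk_low hY htc C mC
  obtain ⟨cD, gD⟩ := sum_rk_low hY' htc D mD
  -- P₁, P₂
  have eP1 : P₁ = (A ∩ C) ∪ (B ∩ D) := by
    ext v
    rw [hP₁, Finset.mem_union, Finset.mem_inter, Finset.mem_inter, mA, mB, mC, mD]
  have eP2 : P₂ = (A ∩ D) ∪ (B ∩ C) := by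
    ext v
    rw [hP₂, Finset.mem_union, Finset.mem_inter, Finset.mem_inter, mA, mB, mC, mD]
  have d1 : Disjoint (A ∩ C) (B ∩ D) :=
    Finset.disjoint_of_subset_left Finset.inter_subset_left
      (Finset.disjoint_of_subset_right Finset.inter_subset_left dAB)
  have d2 : Disjoint (A ∩ D) (B ∩ C) :=
    Finset.disjoint_of_subset_left Finset.inter_subset_left
      (Finset.disjoint_of_subset_right Finset.inter_subset_left dAB)
  have dP : Disjoint P₁ P₂ := by
    rw [eP1, eP2, Finset.disjoint_left]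
    intro v h1 h2
    simp only [Finset.mem_union, Finset.mem_inter] at h1 h2
    have a1 : v ∈ A → v ∉ B := fun q => Finset.disjoint_left.1 dAB q
    have a2 : v ∈ C → v ∉ D := fun q => Finset.disjoint_left.1 dCD q
    tauto
  have cP1 : P₁.card = (A ∩ C).card + (B ∩ D).card := by
    rw [eP1, Finset.card_union_of_disjoint d1]
  have cP2 : P₂.card = (A ∩ D).card + (B ∩ C).card := by
    rw [eP2, Finset.card_union_of_disjoint d2]
  -- pairs
  have hpp := K3_pairs hX hY P₁ P₂ dP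
  rw [cP1, cP2] at hpp
  rw [eP1, eP2, Finset.sum_union d1, Finset.sum_union d2] at hpp
  -- corners
  have kAC := K3_corner h w hw (A ∩ C) (fun v => by rw [Finset.mem_inter, mA, mC])
  have kBC := K3_corner h.negX w hw (B ∩ C) (fun v => by rw [Finset.mem_inter, mB, mC])
  have kAD := K3_corner h.negY w hw (A ∩ D) (fun v => by rw [Finset.mem_inter, mA, mD])
  have kBD := K3_corner h.negX.negY w hw (B ∩ D) (fun v => by rw [Finset.mem_inter, mB, mD])
  simp only [np_negX, np_negY, K3_opp_neg] at kAC kBC kAD kBD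
  simp only [K3_opp_negX, K3_opp_negY] at kBC kAD
  -- splittings
  have cardsplit : ∀ S C D : Finset V, Disjoint C D →
      S.card = (S ∩ C).card + (S ∩ D).card + (S \ (C ∪ D)).card := by
    intro S C D hd
    have := K3_split S C D hd (fun _ => 1)
    simpa using this
  have sA := cardsplit A C D dCD
  have sB := cardsplit B C D dCD
  have sC := cardsplit C A B dAB
  have sD := cardsplit D A B dAB
  have sV := cardsplit Finset.univ A B dAB
  have sW := cardsplit (Finset.univ \ (A ∪ B)) C D dCD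
  have xA := K3_split A C D dCD (rk X)
  have xB := K3_split B C D dCD (rk (fun u => - X u))
  have xC := K3_split C A B dAB (rk Y)
  have xD := K3_split D A B dAB (rk (fun u => - Y u))
  have nV := K3_split Finset.univ A B dAB (fun v => np X Y L v)
  have nW := K3_split (Finset.univ \ (A ∪ B)) C D dCD (fun v => np X Y L v)
  have nA := K3_split A C D dCD (fun v => np X Y L v)
  have nB := K3_split B C D dCD (fun v => np X Y L v)
  rw [Finset.univ_inter, Finset.univ_inter] at sV nV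
  have i1 : (Finset.univ \ (A ∪ B)) ∩ C = C \ (A ∪ B) := by
    ext v; simp only [Finset.mem_inter, Finset.mem_sdiff, Finset.mem_univ, true_and]; tauto
  have i2 : (Finset.univ \ (A ∪ B)) ∩ D = D \ (A ∪ B) := by
    ext v; simp only [Finset.mem_inter, Finset.mem_sdiff, Finset.mem_univ, true_and]; tauto
  rw [i1, i2] at sW nW
  rw [Finset.inter_comm C A, Finset.inter_comm C B] at sC xC
  rw [Finset.inter_comm D A, Finset.inter_comm D B] at sD xD
  -- bounds outside
  have lA : ∑ v ∈ A \ (C ∪ D), np X Y L v ≤ ∑ v ∈ A \ (C ∪ D), rk X v :=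
    Finset.sum_le_sum fun v _ => np_le_rk h v
  have lB : ∑ v ∈ B \ (C ∪ D), np X Y L v ≤ ∑ v ∈ B \ (C ∪ D), rk (fun u => - X u) v :=
    Finset.sum_le_sum fun v _ => by
      have := np_le_rk h.negX v
      rwa [np_negX] at this
  have lC : ∑ v ∈ C \ (A ∪ B), np X Y L v ≤ ∑ v ∈ C \ (A ∪ B), rk Y v :=
    Finset.sum_le_sum fun v _ => np_le_rk' h v
  have lD : ∑ v ∈ D \ (A ∪ B), np X Y L v ≤ ∑ v ∈ D \ (A ∪ B), rk (fun u => - Y u) v :=
    Finset.sum_le_sum fun v _ => by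
      have := np_le_rk' h.negY v
      rwa [np_negY] at this
  have lR : ∑ v ∈ (Finset.univ \ (A ∪ B)) \ (C ∪ D), np X Y L v ≤
      t * ((Finset.univ \ (A ∪ B)) \ (C ∪ D)).card := by
    have := Finset.sum_le_card_nsmul ((Finset.univ \ (A ∪ B)) \ (C ∪ D))
      (fun v => np X Y L v) t (fun v _ => np_le X Y L v)
    rw [smul_eq_mul, mul_comm] at this
    exact this
  have uA := sum_rk_subset hX (t := t) (A \ (C ∪ D)) (fun v hv => by
    rw [Finset.mem_sdiff, mA] at hv; exact hv.1)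
  have uB := sum_rk_subset hX' (t := t) (B \ (C ∪ D)) (fun v hv => by
    rw [Finset.mem_sdiff, mB] at hv; exact hv.1)
  have uC := sum_rk_subset hY (t := t) (C \ (A ∪ B)) (fun v hv => by
    rw [Finset.mem_sdiff, mC] at hv; exact hv.1)
  have uD := sum_rk_subset hY' (t := t) (D \ (A ∪ B)) (fun v hv => by
    rw [Finset.mem_sdiff, mD] at hv; exact hv.1)
  rw [xA] at gA
  rw [xB] at gB
  rw [xC] at gC
  rw [xD] at gD
  have hcard : (Finset.univ : Finset V).card = Fintype.card V := Finset.card_univ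
  have hn : (A ∩ C).card + (A ∩ D).card + (A \ (C ∪ D)).card +
      ((B ∩ C).card + (B ∩ D).card + (B \ (C ∪ D)).card) +
      ((C \ (A ∪ B)).card + (D \ (A ∪ B)).card +
        ((Finset.univ \ (A ∪ B)) \ (C ∪ D)).card) = Fintype.card V := by
    rw [← sA, ← sB, ← sW, ← hcard, sV]
  have hN : ∑ v, np X Y L v = ∑ v ∈ A ∩ C, np X Y L v + ∑ v ∈ A ∩ D, np X Y L v +
      ∑ v ∈ A \ (C ∪ D), np X Y L v + (∑ v ∈ B ∩ C, np X Y L v + ∑ v ∈ B ∩ D, np X Y L v +
      ∑ v ∈ B \ (C ∪ D), np X Y L v) + (∑ v ∈ C \ (A ∪ B), np X Y L v +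
      ∑ v ∈ D \ (A ∪ B), np X Y L v + ∑ v ∈ (Finset.univ \ (A ∪ B)) \ (C ∪ D), np X Y L v) := by
    rw [nV, nA, nB, nW]
  rw [cP1, cP2]
  have key := K3_arithN hn (sA.symm.trans cA) (sB.symm.trans cB) (sC.symm.trans cC)
    (sD.symm.trans cD) gA gB gC gD kAC kAD kBC kBD lA lB lC lD lR uA uB uC uD hpp hN
  exact key

end Helper24.GT
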